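import Pool.Agent.H49.KT.Targets

/-!
Asymptotics (letter ASY of the board kt_modules).
-/

namespace Pool.Agent.H59.KT

open Pool.Agent.H49.KT Filter

theorem lin_le_two_pow (c t : ℕ) (h : 4 * c ≤ t) : c * (t + 1) ≤ 2 ^ t := by
  have h1 : t / 2 + 1 ≤ 2 ^ (t / 2) := Nat.lt_two_pow_self
  have h2 : t / 2 + 1 ≤ 2 ^ (t - t / 2) :=
    h1.trans (Nat.pow_le_pow_right (by norm_num) (by omega))
  have h3 : (t / 2 + 1) * (t / 2 + 1) ≤ 2 ^ t := by
    calc (t / 2 + 1) * (t / 2 + 1) ≤ 2 ^ (t / 2) * 2 ^ (t - t / 2) := Nat.mul_le_mul h1 h2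
      _ = 2 ^ t := by rw [← pow_add]; congr 1; omega
  refine le_trans ?_ h3
  have h4 : t + 1 ≤ 2 * (t / 2 + 1) := by omega
  have h5 : 2 * c ≤ t / 2 + 1 := by omega
  calc c * (t + 1) ≤ c * (2 * (t / 2 + 1)) := Nat.mul_le_mul_left _ h4
    _ = (2 * c) * (t / 2 + 1) := by ring
    _ ≤ (t / 2 + 1) * (t / 2 + 1) := Nat.mul_le_mul_right _ h5

theorem ev_size (c : ℕ) : ∀ᶠ n : ℕ in atTop, c * n.size ≤ n := by
  rcases Nat.eq_zero_or_pos c with rfl | hc
  · simp
  · filter_upwards [eventually_ge_atTop (c * (4 * c))] with n hn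
    have h1 : 4 * c ≤ n / c := by
      rw [Nat.le_div_iff_mul_le hc]
      linarith [mul_comm c (4 * c)]
    have h2 := lin_le_two_pow c (n / c) h1
    have h3 : n < c * (n / c + 1) := by
      have := Nat.lt_div_mul_add hc (a := n)
      nlinarith
    have h4 : n.size ≤ n / c := Nat.size_le.2 (lt_of_lt_of_le h3 h2)
    calc c * n.size ≤ c * (n / c) := Nat.mul_le_mul_left _ h4
      _ ≤ n := Nat.mul_div_le n c

theorem pf_ASY : T_ASY := by
  intro A e k
  filter_upwards [ev_size ((e + 1) * (5 + e + k)), ev_size (5 + A),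
    eventually_ge_atTop (2 ^ A)] with n h1 h2 h3
  have hA : A < n.size := Nat.lt_size.2 h3
  have hs1 : 1 ≤ n.size := by omega
  have hn : n < 2 ^ n.size := Nat.lt_size_self n
  have h5 : 5 * n.size + A ≤ n := by
    refine le_trans ?_ h2
    nlinarith
  have hsp : n.size < 2 ^ n.size := Nat.lt_two_pow_self
  refine ⟨hA.le, ?_, ?_, h5⟩
  · have e1 : (n + 1) ^ 3 ≤ 2 ^ (3 * n.size) := by
      rw [mul_comm, pow_mul]
      exact Nat.pow_le_pow_left hn 3
    have e2 : A < 2 ^ n.size := by omega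
    calc A * (n + 1) ^ 3 * 2 ^ n.size * 2 ^ (n - 5 * n.size)
        ≤ A * 2 ^ (3 * n.size) * 2 ^ n.size * 2 ^ (n - 5 * n.size) := by gcongr
      _ = A * 2 ^ (n - n.size) := by
        rw [mul_assoc, mul_assoc, ← pow_add, ← pow_add]
        congr 2
        omega
      _ < 2 ^ n.size * 2 ^ (n - n.size) := Nat.mul_lt_mul_of_pos_right e2 (by positivity)
      _ = 2 ^ n := by rw [← pow_add]; congr 1; omega
  · set q := n / (e + 1) with hq
    have hq1 : 5 * n.size + e + k ≤ q := by
      rw [hq, Nat.le_div_iff_mul_le (by omega)]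
      refine le_trans ?_ h1
      have : 5 * n.size + e + k ≤ (5 + e + k) * n.size := by nlinarith
      calc (5 * n.size + e + k) * (e + 1) ≤ ((5 + e + k) * n.size) * (e + 1) :=
            Nat.mul_le_mul_right _ this
        _ = (e + 1) * (5 + e + k) * n.size := by ring
    have hq2 : n + A ≤ 2 ^ q := by
      calc n + A ≤ 2 ^ n.size + 2 ^ n.size := by omega
        _ = 2 ^ (n.size + 1) := by ring
        _ ≤ 2 ^ q := Nat.pow_le_pow_right (by norm_num) (by omega)
    have hqn : q * (e + 1) ≤ n := Nat.div_mul_le_self n (e + 1)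
    calc k * (2 ^ q + n + A) ^ e ≤ 2 ^ k * (2 ^ (q + 1)) ^ e := by
          gcongr
          · exact Nat.lt_two_pow_self.le
          · rw [pow_succ]; omega
      _ = 2 ^ (k + (q + 1) * e) := by rw [← pow_mul, ← pow_add]
      _ ≤ 2 ^ (n - 5 * n.size) := by
        apply Nat.pow_le_pow_right (by norm_num)
        have : q * (e + 1) = q * e + q := by ring
        have : (q + 1) * e = q * e + e := by ring
        omega

end Pool.Agent.H59.KT
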