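import Pool.Agent.H49.KT.UTargets

/-!
Generic table step (letter GEN of the board kt2_modules).
-/

namespace Pool.Agent.H59.KT

open Turing Function
open Pool.Agent.H49.KT
open Pool.Agent.H49.KT.Uni

theorem blk_st {V : BM} (s : Sch V) {q : SQ V} (a : V.tm.σ) (hq : Qs V q) :
    s.blk (s.st q a) = s.blkOf q a := by
  unfold Sch.blk
  have h1 : s.st q a ≠ 1 := by
    have := s.st_ge q a
    omega
  have h2 : ∃ p : SQ V × V.tm.σ, Qs V p.1 ∧ s.st p.1 p.2 = s.st q a := ⟨(q, a), hq, rfl⟩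
  rw [if_neg h1, dif_pos h2]
  obtain ⟨e1, e2⟩ := s.st_inj _ _ _ _ h2.choose_spec.1 hq h2.choose_spec.2
  rw [e1, e2]

theorem tbl_st {V : BM} (s : Sch V) {q : SQ V} (a : V.tm.σ) (hq : Qs V q) :
    s.tbl[s.st q a]? = some (s.blkOf q a) := by
  unfold Sch.tbl
  have h1 := s.st_lt q a hq
  rw [List.getElem?_map, List.getElem?_range (by omega), Option.map_some, blk_st s a hq]

theorem ents_ix {V : BM} (s : Sch V) (k : V.tm.K) (F : Option (V.tm.Γ k) → Ent)
    (l : List (V.tm.Γ k)) (hl : ∀ g ∈ l, Sy V k g) :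
    (s.ents k F)[entIx (l.map (s.cd k))]? = some (F l.head?) := by
  unfold Sch.ents
  cases l with
  | nil => rfl
  | cons g t =>
    have hg : Sy V k g := hl g (by simp)
    have h1 := s.cd_lt k g hg
    have h2 : ∃ g', Sy V k g' ∧ s.cd k g' = s.cd k g := ⟨g, hg, rfl⟩
    have h3 : h2.choose = g := s.cd_inj k _ _ h2.choose_spec.1 hg h2.choose_spec.2
    show (F none :: _)[s.cd k g + 1]? = _
    rw [List.getElem?_cons_succ, List.getElem?_map, List.getElem?_range h1, Option.map_some,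
      dif_pos h2, h3]
    rfl

theorem pf_GEN : T_EN → T_GEN := by
  intro hEN V s q a S k F l hq hS hb hF
  refine ⟨s.e k, s.ents k F, (S k).map (s.cd k), (F (S k).head?).1, ?_, (hEN V s S).1 k, ?_, ?_⟩
  · rw [tbl_st s a hq, hb]
  · exact ents_ix s k F (S k) (hS k)
  · rw [← (hEN V s S).2.1 k l, ← hF, List.map_tail]

end Pool.Agent.H59.KT
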