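import Pool.Agent.H49.KT.Targets

/-!
One round of the main loop (letter RND of the board kt_modules).
-/

namespace Pool.Agent.H59.KT

open Turing Function
open Pool.Agent.H49.KT

theorem cntN_le (U : BM) (m N : ℕ) (P : List Bool) : cntN U m N P ≤ N := by
  unfold cntN
  refine (Finset.card_filter_le _ _).trans ?_
  simp

theorem cost_sum (hDS : T_DS) (m p : ℕ) :
    ∑ i ∈ Finset.range (2 ^ (m + 1)), (2 ^ (m - (ds i).length) + m + (ds i).length + p + 1) ≤
      8 * ((m + p + 1) * 2 ^ m) := by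
  have h1 := hDS.2.2 m
  have h2 : ∑ i ∈ Finset.range (2 ^ (m + 1)), (m + (ds i).length + p + 1) ≤
      ∑ _i ∈ Finset.range (2 ^ (m + 1)), (2 * m + p + 2) := by
    refine Finset.sum_le_sum fun i hi => ?_
    have := hDS.2.1 i (m + 1) (Finset.mem_range.1 hi)
    omega
  have h3 : ∑ i ∈ Finset.range (2 ^ (m + 1)), (2 ^ (m - (ds i).length) + m + (ds i).length + p + 1)
      = ∑ i ∈ Finset.range (2 ^ (m + 1)), 2 ^ (m - (ds i).length) +
        ∑ i ∈ Finset.range (2 ^ (m + 1)), (m + (ds i).length + p + 1) := by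
    rw [← Finset.sum_add_distrib]
    refine Finset.sum_congr rfl fun i _ => ?_
    ring
  rw [h3]
  rw [Finset.sum_const, Finset.card_range, smul_eq_mul] at h2
  have h4 : 2 ^ (m + 1) = 2 * 2 ^ m := by ring
  rw [h4] at h1 h2 ⊢
  generalize 2 ^ m = w at *
  nlinarith

theorem pf_RND : T_BL → T_CHO → T_DS → T_RND := by
  intro hBL hCHO hDS U
  obtain ⟨B₀, hB⟩ := hBL U
  refine ⟨8 * B₀ + 60, fun v z m P hz hl hu => ?_⟩
  obtain ⟨zm, zpr, zall, zall', zp, zq, zd, zv0, zv1, zm', zclk, zclk', zd', ze⟩ := hz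
  -- first step
  have s1 := sp_mv v (E₀ U) z (x := .pr) (y := .p) (by simp)
  rw [zpr, zp, List.reverse_reverse, List.append_nil] at s1
  -- second step
  obtain ⟨v2, hv2, s2⟩ := hB (v.sa false) (update (update z .pr []) .p P) m (2 ^ (m + 1)) P
    (by refine ⟨?_, ?_, ?_, ?_, ?_, ?_, ?_, ?_⟩ <;> simp [update, *])
    (by simp [update, *]) (by simp [update, *]) (by simp [update, *]) (by simp [update, *])
    (by simp [update, *]) hl hu
  set z2 := update (update (update (update (update (update (update z .pr []) .p P) .all [])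
    .all' (un (2 ^ (m + 1)))) .d (ds (2 ^ (m + 1))))
    .v1 (un (cntN U m (2 ^ (m + 1)) (P ++ [true]))))
    .v0 (un (cntN U m (2 ^ (m + 1)) (P ++ [false]))) with hz2
  have s3 := sp_mv v2 (E₀ U) z2 (x := .all') (y := .all) (by simp)
  set z3 := update (update z2 .all' []) .all ((z2 .all').reverse ++ z2 .all) with hz3
  have s4 := sp_clr (v2.sa false) (E₀ U) z3 (x := .d)
  set z4 := update z3 .d [] with hz4
  obtain ⟨v5, hv5, hb5, s5⟩ := hCHO U ((v2.sa false).sa false) (E₀ U) z4
    (cntN U m (2 ^ (m + 1)) (P ++ [false])) (cntN U m (2 ^ (m + 1)) (P ++ [true]))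
    (by simp [hz4, hz3, hz2, update]) (by simp [hz4, hz3, hz2, update])
  set z5 := update (update z4 .v0 []) .v1 [] with hz5
  have s6 := sp_mv v5 (E₀ U) z5 (x := .p) (y := .pr) (by simp)
  set z6 := update (update z5 .p []) .pr ((z5 .p).reverse ++ z5 .pr) with hz6
  have s7 := sp_pushb (v5.sa false) (E₀ U) z6 .pr
  have S := s1.seq (s2.seq (s3.seq (s4.seq (s5.seq (s6.seq s7)))))
  refine ⟨v5.sa false, ⟨?_, ?_, ?_⟩, ?_⟩
  · show v5.l = none
    rw [hv5.1]; exact hv2.1
  · show v5.u = _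
    rw [hv5.2.1]; exact hv2.2.1
  · show v5.mode = v.mode
    rw [hv5.2.2]; exact hv2.2.2
  · have hfin : update z6 .pr ((v5.sa false).b :: z6 .pr) = update z .pr (pick U m P :: P.reverse) := by
      funext x
      have hb : (v5.sa false).b = pick U m P := hb5
      rw [hb]
      cases x <;> simp [hz6, hz5, hz4, hz3, hz2, update, *]
    rw [hfin] at S
    refine S.mono ?_
    have c0 := cost_sum hDS m P.length
    have c1 : (z2 .all').length = 2 ^ (m + 1) := by simp [hz2, update]
    have c2 : (z3 .d).length ≤ m + 2 := by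
      have : z3 .d = ds (2 ^ (m + 1)) := by simp [hz3, hz2, update]
      rw [this]
      exact hDS.2.1 _ _ (Nat.pow_lt_pow_right (by norm_num) (by omega))
    have c3 : (z5 .p).length = P.length := by simp [hz5, hz4, hz3, hz2, update]
    have c4 := cntN_le U m (2 ^ (m + 1)) (P ++ [false])
    have c5 := cntN_le U m (2 ^ (m + 1)) (P ++ [true])
    rw [c1, c3]
    have h4 : 2 ^ (m + 1) = 2 * 2 ^ m := by ring
    have hw : 1 ≤ 2 ^ m := Nat.one_le_two_pow
    rw [h4] at c4 c5 c0 ⊢
    have c6 := Nat.mul_le_mul_left B₀ c0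
    generalize (∑ i ∈ Finset.range (2 * 2 ^ m),
      (2 ^ (m - (ds i).length) + m + (ds i).length + P.length + 1)) = Q at *
    have c7 : m ≤ (m + P.length + 1) * 2 ^ m := by nlinarith
    have c8 : P.length ≤ (m + P.length + 1) * 2 ^ m := by nlinarith
    have c9 : 2 ^ m ≤ (m + P.length + 1) * 2 ^ m := by nlinarith
    have c10 : (8 * B₀ + 60) * ((m + P.length + 1) * 2 ^ m) =
      B₀ * (8 * ((m + P.length + 1) * 2 ^ m)) + 60 * ((m + P.length + 1) * 2 ^ m) := by ring
    rw [c10]
    rw [List.length_reverse]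
    generalize (m + P.length + 1) * 2 ^ m = W at *
    omega

end Pool.Agent.H59.KT
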